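import Pool.Agent.Q102.ClassP.Pal

/-!
# Letter counts of the images of the letters under a morphism that preserves the language
-/

set_option autoImplicit false

namespace Pool.Agent.Q102.ClassP

/-- the letter counts of the standard words -/
def r (k : ℕ) (ℓ : Fin 3) : ℕ := (TT (Sj k)).count ℓ

lemma r_zero (ℓ : Fin 3) : r 0 ℓ = ([0, 1] : List (Fin 3)).count ℓ := rfl

lemma r_one (ℓ : Fin 3) : r 1 ℓ = ([0, 1, 0, 2, 2, 2, 2] : List (Fin 3)).count ℓ := by
  unfold r
  rw [Sj_succ]; rfl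

lemma r_Z (j : ℕ) (ℓ : Fin 3) : (TT (Zj j)).count ℓ = r (j + 1) ℓ := by
  unfold r; rw [Sj_succ]

lemma r_rec (k : ℕ) (ℓ : Fin 3) : r (k + 2) ℓ = 5 * r (k + 1) ℓ + r k ℓ := by
  rw [← r_Z, ← r_Z]
  unfold r
  have h1 : Zj (k + 1) = Zj k ++ (Sj k ++ pw 4 (Zj k)) := by
    rw [show Zj (k + 1) = Sj (k + 1) ++ Tj (k + 1) from rfl, Sj_succ, Tj_succ]
  rw [h1, TT_append, TT_append, TT_pw, List.count_append, List.count_append, count_pw]
  ring

lemma r00 : r 0 0 = 1 := rfl
lemma r01 : r 0 1 = 1 := rfl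
lemma r02 : r 0 2 = 0 := rfl
lemma r10 : r 1 0 = 2 := by rw [r_one]; rfl
lemma r11 : r 1 1 = 1 := by rw [r_one]; rfl
lemma r12 : r 1 2 = 4 := by rw [r_one]; rfl

lemma r_lt (k : ℕ) : r k 0 < r (k + 1) 0 := by
  induction k with
  | zero => rw [r00, r10]; norm_num
  | succ k ih => rw [r_rec]; omega

lemma r_mono : StrictMono (fun k => r k 0) := strictMono_nat_of_lt_succ r_lt

lemma r_pos (k : ℕ) : 1 ≤ r k 0 := by
  have := r_mono.monotone (Nat.zero_le k)
  simp only [r00] at this
  exact this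

lemma parity (k : ℕ) :
    (r k 0 % 2 = 1 ∧ r k 1 % 2 = 1 ∧ r (k + 1) 0 % 2 = 0 ∧ r (k + 1) 1 % 2 = 1) ∨
    (r k 0 % 2 = 0 ∧ r k 1 % 2 = 1 ∧ r (k + 1) 0 % 2 = 1 ∧ r (k + 1) 1 % 2 = 0) ∨
    (r k 0 % 2 = 1 ∧ r k 1 % 2 = 0 ∧ r (k + 1) 0 % 2 = 1 ∧ r (k + 1) 1 % 2 = 1) := by
  induction k with
  | zero => left; rw [r00, r01, r10, r11]; norm_num
  | succ k ih =>
    have h0 := r_rec k 0
    have h1 := r_rec k 1
    rw [show k + 1 + 1 = k + 2 from rfl]
    omega

/-- the possible letter counts of a word whose fourth power is in the language -/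
def Good (v : Fin 3 → ℕ) : Prop :=
  (∀ ℓ, v ℓ = 0) ∨ (∀ ℓ, v ℓ = ([2] : List (Fin 3)).count ℓ) ∨ ∃ j, ∀ ℓ, v ℓ = r (j + 1) ℓ

lemma good_of_power {y : List (Fin 3)} (h : pw 4 y ∈ Lu) : Good (fun ℓ => y.count ℓ) := by
  rcases powers_Lu y h with h1 | h1 | ⟨j, hj⟩
  · left; intro ℓ; rw [h1]; rfl
  · right; left; intro ℓ; rw [h1]
  · right; right; exact ⟨j, fun ℓ => by rw [← r_Z]; exact hj ℓ⟩

theorem arith (al be q : Fin 3 → ℕ) (h0 : Good (fun ℓ => 2 * al ℓ + be ℓ + 4 * q ℓ))
    (h1 : Good (fun ℓ => 5 * (2 * al ℓ + be ℓ + 4 * q ℓ) + (al ℓ + be ℓ))) (h2 : Good q)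
    (hne : al 0 + be 0 + q 0 ≠ 0) :
    ((∀ ℓ, al ℓ = ([0] : List (Fin 3)).count ℓ) ∧ (∀ ℓ, be ℓ = ([1] : List (Fin 3)).count ℓ) ∧
      (∀ ℓ, q ℓ = ([2] : List (Fin 3)).count ℓ)) ∨
    ∃ k, ∀ ℓ, al ℓ = r k ℓ ∧ q ℓ = r (k + 1) ℓ ∧ al ℓ + be ℓ = r (k + 1) ℓ := by
  have c20 : ([2] : List (Fin 3)).count 0 = 0 := rfl
  have c21 : ([2] : List (Fin 3)).count 1 = 0 := rfl
  have c22 : ([2] : List (Fin 3)).count 2 = 1 := rfl
  rcases h0 with h0 | h0 | ⟨n, h0⟩
  · have := h0 0; simp only at this; omega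
  · have := h0 0; simp only [c20] at this; omega
  rcases h1 with h1 | h1 | ⟨n', h1⟩
  · have := h1 0; simp only at this; omega
  · have := h1 0; simp only [c20] at this; omega
  simp only at h0 h1
  -- n' = n + 1
  have e0 := h0 0
  have e1 := h1 0
  have hp := r_pos (n + 1)
  have hn1 : n + 1 < n' + 1 := by
    by_contra hc
    push Not at hc
    have := r_mono.monotone hc
    omega
  have hn2 : n' = n + 1 := by
    by_contra hc
    have h3 : n + 3 ≤ n' + 1 := by omega
    have h4 := r_mono.monotone h3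
    have h5 := r_rec (n + 1) 0
    have h6 := r_rec n 0
    have h7 : n + 1 + 2 = n + 3 := rfl
    have h8 : n + 1 + 1 = n + 2 := rfl
    rw [h7, h8] at h5
    omega
  subst hn2
  have hab : ∀ ℓ, al ℓ + be ℓ = r n ℓ := by
    intro ℓ
    have h3 := h0 ℓ
    have h4 := h1 ℓ
    rw [show n + 1 + 1 = n + 2 from rfl, r_rec] at h4
    omega
  rcases h2 with h2 | h2 | ⟨j, h2⟩
  · -- q = 0
    exfalso
    cases n with
    | zero =>
      have h3 := h0 2
      have h4 := hab 2
      have h5 := h2 2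
      rw [r02] at h4
      rw [Nat.zero_add, r12] at h3
      omega
    | succ n =>
      have h3 := h0 0
      have h4 := hab 0
      have h5 := h2 0
      rw [show n + 1 + 1 = n + 2 from rfl, r_rec] at h3
      have := r_pos (n + 1)
      have := r_pos n
      omega
  · -- q = e_c
    cases n with
    | zero =>
      left
      have A0 : al 0 = 1 ∧ be 0 = 0 := by
        have h3 := h0 0
        have h4 := hab 0
        have h5 := h2 0
        rw [Nat.zero_add, r10] at h3
        rw [r00] at h4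
        rw [c20] at h5
        omega
      have A1 : al 1 = 0 ∧ be 1 = 1 := by
        have h3 := h0 1
        have h4 := hab 1
        have h5 := h2 1
        rw [Nat.zero_add, r11] at h3
        rw [r01] at h4
        rw [c21] at h5
        omega
      have A2 : al 2 = 0 ∧ be 2 = 0 := by
        have h4 := hab 2
        rw [r02] at h4
        omega
      refine ⟨fun ℓ => ?_, fun ℓ => ?_, h2⟩
      · fin_cases ℓ
        · exact A0.1
        · exact A1.1
        · exact A2.1
      · fin_cases ℓ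
        · exact A0.2
        · exact A1.2
        · exact A2.2
    | succ n =>
      exfalso
      have h3 := h0 0
      have h4 := hab 0
      have h5 := h2 0
      rw [show n + 1 + 1 = n + 2 from rfl, r_rec] at h3
      rw [c20] at h5
      have := r_pos (n + 1)
      have := r_pos n
      omega
  · -- q = r (j + 1)
    right
    cases n with
    | zero =>
      exfalso
      have h3 := h0 0
      have h5 := h2 0
      rw [Nat.zero_add, r10] at h3
      have := r_pos (j + 1)
      omega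
    | succ n =>
      have h3 := h0 0
      have h4 := hab 0
      have h5 := h2 0
      rw [show n + 1 + 1 = n + 2 from rfl, r_rec] at h3
      have hj : j = n := by
        rcases Nat.lt_trichotomy j n with h6 | h6 | h6
        · exfalso
          have h7 : j + 1 ≤ n := h6
          have h8 := r_mono.monotone h7
          have := r_lt n
          omega
        · exact h6
        · exfalso
          have h7 : n + 2 ≤ j + 1 := by omega
          have h8 := r_mono.monotone h7
          have h9 := r_rec n 0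
          have := r_pos (n + 1)
          omega
      subst hj
      refine ⟨j, fun ℓ => ?_⟩
      have h3 := h0 ℓ
      have h4 := hab ℓ
      have h5 := h2 ℓ
      rw [show j + 1 + 1 = j + 2 from rfl, r_rec] at h3
      exact ⟨by omega, h5, h4⟩

lemma pal_parity (p : List (Fin 3)) (hp : p.reverse = p) :
    ¬ (p.count 0 % 2 = 1 ∧ p.count 1 % 2 = 1) := by
  have h := List.Palindrome.of_reverse_eq hp
  clear hp
  induction h with
  | nil => simp
  | singleton x => fin_cases x <;> simp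
  | cons_concat x hl ih =>
    rename_i l
    fin_cases x <;> simp [List.count_append, List.count_cons] <;> omega

/-- **A morphism that preserves the language is the identity or does not reverse.** -/
theorem core (ψ : Fin 3 → List (Fin 3)) (hψ : ∀ w ∈ Lu, w.flatMap ψ ∈ Lu)
    (h0 : ∃ x, (0 : Fin 3) ∈ ψ x) (p : List (Fin 3)) (hp : p.reverse = p)
    (hpal : ∀ x, ∃ W : List (Fin 3), W.reverse = W ∧
      ∀ ℓ, W.count ℓ = (ψ x).count ℓ + p.count ℓ) :
    ∀ x, ψ x = [x] := by
  have hpow : ∀ z, pw 4 z ∈ Lu → Good (fun ℓ => (z.flatMap ψ).count ℓ) := by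
    intro z hz
    apply good_of_power
    rw [← flatMap_pw]
    exact hψ _ hz
  -- the three fourth powers
  have z0 : pw 4 ([0, 1, 0, 2, 2, 2, 2] : List (Fin 3)) ∈ Lu := by
    refine ⟨2, ?_⟩
    unfold Sj
    refine ⟨[0, 1, 0, 2, 2, 2, 2, 0, 1], [], by decide⟩
  have v0 : pw 4 [true, false] ∈ Lv := by
    refine ⟨2, ?_⟩
    unfold Sj
    refine ⟨[true, false, true], [], by decide⟩
  have z1 : pw 4 (TT (G [true, false])) ∈ Lu := by
    rw [← TT_pw, ← G_pw]
    exact Lu_of_Lv (Lv_G v0)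
  have z2 : pw 4 ([2] : List (Fin 3)) ∈ Lu := by
    refine ⟨1, ?_⟩
    unfold Sj
    refine ⟨[0, 1, 0], [], by decide⟩
  have g0 := hpow _ z0
  have g1 := hpow _ z1
  have g2 := hpow _ z2
  have e1 : TT (G [true, false]) = [0, 1, 0, 2, 2, 2, 2, 0, 1, 0, 1, 0, 2, 2, 2, 2, 0, 1, 0, 2, 2,
      2, 2, 0, 1, 0, 2, 2, 2, 2, 0, 1, 0, 2, 2, 2, 2] := by decide
  have f0 : (fun ℓ => (([0, 1, 0, 2, 2, 2, 2] : List (Fin 3)).flatMap ψ).count ℓ) =
      fun ℓ => 2 * (ψ 0).count ℓ + (ψ 1).count ℓ + 4 * (ψ 2).count ℓ := by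
    funext ℓ
    simp only [List.flatMap_cons, List.flatMap_nil, List.count_append, List.count_nil]
    ring
  have f1 : (fun ℓ => ((TT (G [true, false])).flatMap ψ).count ℓ) =
      fun ℓ => 5 * (2 * (ψ 0).count ℓ + (ψ 1).count ℓ + 4 * (ψ 2).count ℓ)
        + ((ψ 0).count ℓ + (ψ 1).count ℓ) := by
    funext ℓ
    rw [e1]
    simp only [List.flatMap_cons, List.flatMap_nil, List.count_append, List.count_nil]
    ring
  have f2 : (fun ℓ => (([2] : List (Fin 3)).flatMap ψ).count ℓ) = fun ℓ => (ψ 2).count ℓ := by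
    funext ℓ
    simp only [List.flatMap_cons, List.flatMap_nil, List.count_append, List.count_nil, add_zero]
  rw [f0] at g0
  rw [f1] at g1
  rw [f2] at g2
  have hne : (ψ 0).count 0 + (ψ 1).count 0 + (ψ 2).count 0 ≠ 0 := by
    obtain ⟨x, hx⟩ := h0
    have h1 : 0 < (ψ x).count 0 := List.count_pos_iff.mpr hx
    fin_cases x
    · simp only [Fin.zero_eta] at h1; omega
    · simp only [Fin.mk_one] at h1; omega
    · simp only [Fin.reduceFinMk] at h1; omega
  rcases arith (fun ℓ => (ψ 0).count ℓ) (fun ℓ => (ψ 1).count ℓ) (fun ℓ => (ψ 2).count ℓ) g0 g1 g2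
    hne with ⟨h1, h2, h3⟩ | ⟨k, hk⟩
  · intro x
    fin_cases x
    · exact List.perm_singleton.mp (List.perm_iff_count.mpr h1)
    · exact List.perm_singleton.mp (List.perm_iff_count.mpr h2)
    · exact List.perm_singleton.mp (List.perm_iff_count.mpr h3)
  · exfalso
    obtain ⟨W0, a0, b0⟩ := hpal 0
    obtain ⟨W1, a1, b1⟩ := hpal 1
    obtain ⟨W2, a2, b2⟩ := hpal 2
    have p0 := pal_parity W0 a0
    have p1 := pal_parity W1 a1
    have p2 := pal_parity W2 a2
    have p3 := pal_parity p hp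
    have k0 := hk 0
    have k1 := hk 1
    rw [b0 0, b0 1] at p0
    rw [b1 0, b1 1] at p1
    rw [b2 0, b2 1] at p2
    rcases parity k with h | h | h <;> omega

end Pool.Agent.Q102.ClassP
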