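import Pool.Agent.Q102.ClassP.Levels

/-!
# The ternary word: the image of the binary word under `A ↦ ab, B ↦ acccc`
-/

set_option autoImplicit false

namespace Pool.Agent.Q102.ClassP

/-- `A ↦ ab`, `B ↦ acccc` -/
def tau (x : Bool) : List (Fin 3) := if x then [0, 1] else [0, 2, 2, 2, 2]

/-- `tau` on words -/
def TT (w : List Bool) : List (Fin 3) := w.flatMap tau

lemma TT_append (u v : List Bool) : TT (u ++ v) = TT u ++ TT v := by simp [TT]
@[simp] lemma TT_nil : TT [] = [] := rfl
lemma TT_cons (x : Bool) (u : List Bool) : TT (x :: u) = tau x ++ TT u := by simp [TT]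
lemma TT_pw (k : ℕ) (z : List Bool) : TT (pw k z) = pw k (TT z) := flatMap_pw _ _ _

lemma TT_infix {u w : List Bool} (h : u <:+: w) : TT u <:+: TT w := by
  obtain ⟨p, q, rfl⟩ := h
  exact ⟨TT p, TT q, by simp [TT_append]⟩

/-- The language of the ternary word. -/
def Lu : Set (List (Fin 3)) := {w | ∃ n, w <:+: TT (Sj n)}

lemma Lu_factor {u w : List (Fin 3)} (h : w ∈ Lu) (hu : u <:+: w) : u ∈ Lu := by
  obtain ⟨n, hn⟩ := h
  exact ⟨n, hu.trans hn⟩

lemma Lu_of_Lv {w : List Bool} (h : w ∈ Lv) : TT w ∈ Lu := by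
  obtain ⟨n, hn⟩ := h
  exact ⟨n, TT_infix hn⟩

/-! ### decoding -/

/-- the code letter of a letter with its successor -/
def eL : Fin 3 → Option (Fin 3) → List Bool
  | 0, some 1 => [true]
  | 0, some 2 => [false]
  | _, _ => []

/-- the decoding of a word, given the next letter -/
def D : List (Fin 3) → Option (Fin 3) → List Bool
  | [], _ => []
  | x :: w, h => eL x (w.head?.or h) ++ D w h

@[simp] lemma D_nil (h : Option (Fin 3)) : D [] h = [] := rfl

lemma D_cons (x : Fin 3) (w : List (Fin 3)) (h : Option (Fin 3)) :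
    D (x :: w) h = eL x (w.head?.or h) ++ D w h := rfl

lemma D_append (u v : List (Fin 3)) (h : Option (Fin 3)) :
    D (u ++ v) h = D u (v.head?.or h) ++ D v h := by
  induction u with
  | nil => rfl
  | cons x u ih =>
    rw [List.cons_append, D_cons, D_cons, ih, List.append_assoc]
    congr 2
    cases u with
    | nil => simp
    | cons y u => simp

lemma D_TT (w : List Bool) (h : Option (Fin 3)) : D (TT w) h = w := by
  induction w with
  | nil => rfl
  | cons x w ih =>
    rw [TT_cons, D_append, ih]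
    cases x <;> simp [tau, D, eL]

/-- if the last letter is not `a` then the next letter does not matter -/
lemma D_last (u : List (Fin 3)) (h h' : Option (Fin 3)) (hu : u.getLast? ≠ some 0) :
    D u h = D u h' := by
  induction u with
  | nil => rfl
  | cons x u ih =>
    unfold D
    cases u with
    | nil =>
      simp only [List.getLast?_singleton, ne_eq, Option.some.injEq] at hu
      fin_cases x
      · simp at hu
      · simp [eL]
      · simp [eL]
    | cons y u =>
      rw [ih (by rwa [List.getLast?_cons_cons] at hu)]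
      simp

lemma D_prefix (u : List (Fin 3)) (h : Option (Fin 3)) : D u none <+: D u h := by
  induction u with
  | nil => exact List.prefix_rfl
  | cons x u ih =>
    unfold D
    cases u with
    | nil =>
      simp only [List.head?_nil, Option.or_none, D_nil, List.append_nil]
      have : eL x none = [] := by
        fin_cases x <;> rfl
      rw [this]; exact List.nil_prefix
    | cons y u =>
      simp only [List.head?_cons, Option.some_or]
      exact List.prefix_append_right_inj _ |>.mpr ih

lemma D_infix {u w : List (Fin 3)} (h : u <:+: w) : D u none <:+: D w none := by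
  obtain ⟨p, q, rfl⟩ := h
  rw [D_append, D_append]
  obtain ⟨r, hr⟩ := D_prefix u (q.head?.or none)
  refine ⟨D p ((u.head?.or (q.head?.or none))), r ++ D q none, ?_⟩
  rw [← hr]
  simp [D_append, List.append_assoc]

lemma D_Lu {w : List (Fin 3)} (h : w ∈ Lu) : D w none ∈ Lv := by
  obtain ⟨n, hn⟩ := h
  refine ⟨n, ?_⟩
  have := D_infix hn
  rwa [D_TT] at this

lemma D_pw (k : ℕ) (y : List (Fin 3)) (hy : y.getLast? ≠ some 0) :
    D (pw k y) none = pw k (D y none) := by
  induction k with
  | zero => rfl
  | succ k ih => rw [pw_succ, D_append, ih, D_last y _ none hy, pw_succ]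

lemma D_no_zero (s : List (Fin 3)) (hs : (0 : Fin 3) ∉ s) (h : Option (Fin 3)) : D s h = [] := by
  induction s with
  | nil => rfl
  | cons x s ih =>
    unfold D
    simp only [List.mem_cons, not_or] at hs
    rw [ih hs.2]
    have h1 : x ≠ 0 := fun h => hs.1 h.symm
    fin_cases x
    · simp at h1
    · rfl
    · rfl

/-! ### cutting -/

lemma tau_eq (x : Bool) : ∃ b : List (Fin 3), tau x = 0 :: b ∧ (0 : Fin 3) ∉ b ∧
    (b = [1] ∨ b = [2, 2, 2, 2]) := by
  cases x
  · exact ⟨[2, 2, 2, 2], rfl, by decide, Or.inr rfl⟩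
  · exact ⟨[1], rfl, by decide, Or.inl rfl⟩

/-- the letter `a` only occurs at the beginning of blocks -/
lemma cut (x : List Bool) : ∀ (p w : List (Fin 3)), p ++ 0 :: w = TT x →
    ∃ x1 x2, x = x1 ++ x2 ∧ p = TT x1 ∧ 0 :: w = TT x2 := by
  induction x with
  | nil => intro p w h; simp at h
  | cons v x ih =>
    intro p w h
    cases p with
    | nil => exact ⟨[], v :: x, rfl, rfl, h⟩
    | cons c p =>
      obtain ⟨b, h1, h2, -⟩ := tau_eq v
      rw [TT_cons, h1] at h
      simp only [List.cons_append, List.cons.injEq] at h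
      obtain ⟨rfl, h⟩ := h
      rcases List.append_eq_append_iff.mp h with ⟨a', h3, h4⟩ | ⟨c', h3, h4⟩
      · -- b = p ++ a', 0 :: w = a' ++ TT x
        cases a' with
        | nil =>
          simp only [List.append_nil, List.nil_append] at h3 h4
          exact ⟨[v], x, rfl, by rw [TT_cons, h1, h3]; simp, h4⟩
        | cons d a' =>
          simp only [List.cons_append, List.cons.injEq] at h4
          exfalso; apply h2
          rw [h3, ← h4.1]; simp
      · -- p = b ++ c', TT x = c' ++ 0 :: w
        obtain ⟨x1, x2, h5, h6, h7⟩ := ih c' w h4.symm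
        exact ⟨v :: x1, x2, by rw [h5]; rfl, by rw [TT_cons, h1, h3, h6]; simp, h7⟩

lemma length_TT_ge (x : List Bool) : 2 * x.length ≤ (TT x).length := by
  induction x with
  | nil => simp
  | cons v x ih => rw [TT_cons]; cases v <;> simp [tau] <;> omega

lemma count_TT (ℓ : Fin 3) (x : List Bool) : (TT x).count ℓ =
    match ℓ with
    | 0 => x.length
    | 1 => x.count true
    | 2 => 4 * (x.length - x.count true) := by
  induction x with
  | nil => fin_cases ℓ <;> rfl
  | cons v x ih =>
    rw [TT_cons, List.count_append, ih]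
    have hle : x.count true ≤ x.length := List.count_le_length
    cases v <;> fin_cases ℓ <;> simp [tau] <;> omega

/-- words `0 w 0` of the language -/
lemma cut2 {w : List (Fin 3)} (h : 0 :: w ++ [0] ∈ Lu) : ∃ k, 0 :: w = TT k := by
  obtain ⟨n, p, q, hpq⟩ := h
  have h1 : p ++ 0 :: (w ++ ([0] ++ q)) = TT (Sj n) := by
    rw [← hpq]; simp
  obtain ⟨x1, x2, -, -, h2⟩ := cut _ _ _ h1
  have h3 : (0 :: w) ++ 0 :: q = TT x2 := by rw [← h2]; simp
  obtain ⟨x3, x4, -, h4, -⟩ := cut _ _ _ h3
  exact ⟨x3, h4⟩

lemma not_zero_zero : ([0, 0] : List (Fin 3)) ∉ Lu := by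
  intro h
  obtain ⟨k, hk⟩ := cut2 (w := []) h
  have h1 := length_TT_ge k
  rw [← hk] at h1
  have h2 : k = [] := List.eq_nil_of_length_eq_zero (by simp at h1; omega)
  subst h2
  simp at hk

lemma last_zero (p : List (Fin 3)) (hp : (0 : Fin 3) ∈ p) :
    ∃ p1 p2 : List (Fin 3), p = p1 ++ 0 :: p2 ∧ (0 : Fin 3) ∉ p2 := by
  induction p with
  | nil => simp at hp
  | cons c p ih =>
    by_cases hc : (0 : Fin 3) ∈ p
    · obtain ⟨p1, p2, h1, h2⟩ := ih hc
      exact ⟨c :: p1, p2, by rw [h1]; rfl, h2⟩
    · have : c = 0 := by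
        simp only [List.mem_cons] at hp
        rcases hp with h | h
        · exact h.symm
        · exact absurd h hc
      subst this
      exact ⟨[], p, rfl, hc⟩

/-- factors without `a` -/
lemma no_zero {w : List (Fin 3)} (h : w ∈ Lu) (h0 : (0 : Fin 3) ∉ w) :
    w <:+: [1] ∨ w <:+: [2, 2, 2, 2] := by
  rcases eq_or_ne w [] with hw | hw
  · subst hw; left; exact List.nil_infix
  obtain ⟨n, p, q, hpq⟩ := h
  -- the last `a` before
  have hp : (0 : Fin 3) ∈ p := by
    cases hS : Sj n with
    | nil => have := Sj_pos n; rw [hS] at this; simp at this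
    | cons v x =>
      obtain ⟨b, h1, -, -⟩ := tau_eq v
      rw [hS, TT_cons, h1] at hpq
      cases p with
      | nil =>
        exfalso
        cases w with
        | nil => exact hw rfl
        | cons c w =>
          simp only [List.nil_append, List.cons_append, List.cons.injEq] at hpq
          rw [hpq.1] at h0; simp at h0
      | cons c p =>
        simp only [List.cons_append, List.cons.injEq] at hpq
        rw [hpq.1]; simp
  obtain ⟨p1, p2, hp12, hp2⟩ := last_zero p hp
  -- the first `a` after
  obtain ⟨q1, q2, hq12, hq1⟩ : ∃ q1 q2 : List (Fin 3), q ++ [0, 1] = q1 ++ 0 :: q2 ∧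
      (0 : Fin 3) ∉ q1 := by
    clear hpq
    induction q with
    | nil => exact ⟨[], [1], rfl, by simp⟩
    | cons c q ih =>
      by_cases hc : c = 0
      · subst hc; exact ⟨[], q ++ [0, 1], rfl, by simp⟩
      · obtain ⟨q1, q2, h1, h2⟩ := ih
        refine ⟨c :: q1, q2, by rw [List.cons_append, h1]; rfl, ?_⟩
        simp only [List.mem_cons, not_or]
        exact ⟨fun h => hc h.symm, h2⟩
  have e1 : p1 ++ 0 :: (p2 ++ (w ++ (q1 ++ 0 :: q2))) = TT (Sj n ++ [true]) := by
    rw [TT_append, ← hpq, ← hq12, hp12]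
    simp [TT, tau]
  obtain ⟨x1, x2, -, -, h2⟩ := cut _ _ _ e1
  have h3 : (0 :: (p2 ++ w ++ q1)) ++ 0 :: q2 = TT x2 := by rw [← h2]; simp
  obtain ⟨x3, x4, -, h4, -⟩ := cut _ _ _ h3
  have h5 : x3.length = 1 := by
    have h6 := count_TT 0 x3
    rw [← h4] at h6
    have h7 : (p2 ++ w ++ q1).count 0 = 0 := by
      rw [List.count_eq_zero]; simp [hp2, h0, hq1]
    rw [List.count_cons_self, h7] at h6
    simpa using h6.symm
  obtain ⟨v, rfl⟩ := List.length_eq_one_iff.mp h5
  obtain ⟨b, h6, -, h7⟩ := tau_eq v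
  have h8 : p2 ++ w ++ q1 = b := by
    have : (0 : Fin 3) :: (p2 ++ w ++ q1) = 0 :: b := by
      rw [h4, TT_cons, h6]; simp
    simpa using this
  rcases h7 with h7 | h7
  · left; rw [← h7]; exact ⟨p2, q1, h8⟩
  · right; rw [← h7]; exact ⟨p2, q1, h8⟩

end Pool.Agent.Q102.ClassP
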