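import Pool.Agent.Q102.ClassP.Power

/-!
# The binary word: fixed point of `A ↦ AB, B ↦ A(AB)^4`
-/

set_option autoImplicit false

namespace Pool.Agent.Q102.ClassP

/-- `A ↦ AB`, `B ↦ A(AB)^4` with `A = true`, `B = false`. -/
def g (x : Bool) : List Bool := if x then [true, false] else true :: pw 4 [true, false]

/-- the morphism `g` on words -/
def G (w : List Bool) : List Bool := w.flatMap g

lemma G_append (u v : List Bool) : G (u ++ v) = G u ++ G v := by simp [G]
@[simp] lemma G_nil : G [] = [] := rfl
lemma G_true : G [true] = [true, false] := by simp [G, g]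
lemma G_false : G [false] = true :: pw 4 [true, false] := by simp [G, g]
lemma G_pw (k : ℕ) (z : List Bool) : G (pw k z) = pw k (G z) := flatMap_pw _ _ _

lemma Gi_append (j : ℕ) (u v : List Bool) : G^[j] (u ++ v) = G^[j] u ++ G^[j] v := by
  induction j generalizing u v with
  | zero => rfl
  | succ j ih => rw [Function.iterate_succ_apply, G_append, ih]; rfl

@[simp] lemma Gi_nil (j : ℕ) : G^[j] [] = [] := by
  induction j with
  | zero => rfl
  | succ j ih => rw [Function.iterate_succ_apply, G_nil, ih]

lemma Gi_pw (j k : ℕ) (z : List Bool) : G^[j] (pw k z) = pw k (G^[j] z) := by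
  induction k with
  | zero => simp
  | succ k ih => rw [pw_succ, Gi_append, ih, pw_succ]

/-- `g^j(A)` -/
def Sj (j : ℕ) : List Bool := G^[j] [true]
/-- `g^j(B)` -/
def Tj (j : ℕ) : List Bool := G^[j] [false]
/-- `g^j(AB)` -/
def Zj (j : ℕ) : List Bool := Sj j ++ Tj j

lemma Sj_succ (j : ℕ) : Sj (j + 1) = Zj j := by
  unfold Sj Zj Tj
  rw [Function.iterate_succ_apply, G_true, show [true, false] = [true] ++ [false] from rfl,
    Gi_append]
  rfl

lemma Zj_eq (j : ℕ) : G^[j] [true, false] = Zj j := by
  rw [show [true, false] = [true] ++ [false] from rfl, Gi_append]; rfl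

lemma Tj_succ (j : ℕ) : Tj (j + 1) = Sj j ++ pw 4 (Zj j) := by
  unfold Tj
  rw [Function.iterate_succ_apply, G_false,
    show (true :: pw 4 [true, false]) = [true] ++ pw 4 [true, false] from rfl, Gi_append, Gi_pw,
    Zj_eq]
  rfl

/-- the exchange property and coprimality on all levels -/
lemma level (j : ℕ) : ∃ (s t : List Bool) (x y : Bool), x ≠ y ∧
    Sj j ++ Tj j = s ++ x :: y :: t ∧ Tj j ++ Sj j = s ++ y :: x :: t := by
  induction j with
  | zero => exact ⟨[], [], true, false, by simp, rfl, rfl⟩
  | succ j ih =>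
    obtain ⟨s, t, x, y, hxy, h1, h2⟩ := ih
    refine ⟨Sj j ++ s, t ++ pw 4 (Zj j), y, x, hxy.symm, ?_, ?_⟩
    · rw [Sj_succ, Tj_succ]
      calc Zj j ++ (Sj j ++ pw 4 (Zj j)) = Sj j ++ ((Tj j ++ Sj j) ++ pw 4 (Zj j)) := by
            conv_lhs => rw [show Zj j = Sj j ++ Tj j from rfl]
            simp only [List.append_assoc]
            rfl
        _ = _ := by rw [h2]; simp only [List.append_assoc, List.cons_append]
    · rw [Sj_succ, Tj_succ]
      calc (Sj j ++ pw 4 (Zj j)) ++ Zj j = Sj j ++ (Zj j ++ pw 4 (Zj j)) := by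
            rw [List.append_assoc, ← pw_succ', pw_succ]
        _ = Sj j ++ ((Sj j ++ Tj j) ++ pw 4 (Zj j)) := rfl
        _ = _ := by rw [h1]; simp only [List.append_assoc, List.cons_append]

lemma length_Zj_succ (j : ℕ) : (Zj (j + 1)).length = (Sj j).length + 5 * (Zj j).length := by
  conv_lhs => rw [show Zj (j + 1) = Sj (j + 1) ++ Tj (j + 1) from rfl]
  rw [Sj_succ, Tj_succ]
  simp; ring

lemma count_Zj_succ (a : Bool) (j : ℕ) :
    (Zj (j + 1)).count a = (Sj j).count a + 5 * (Zj j).count a := by
  conv_lhs => rw [show Zj (j + 1) = Sj (j + 1) ++ Tj (j + 1) from rfl]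
  rw [Sj_succ, Tj_succ, List.count_append, List.count_append, count_pw]; ring

lemma det (j : ℕ) : ((Sj j).length : ℤ) * (Zj j).count true
    - (Zj j).length * (Sj j).count true = (-1) ^ (j + 1) := by
  induction j with
  | zero => simp [Sj, Zj, Tj]
  | succ j ih =>
    rw [Sj_succ, length_Zj_succ, count_Zj_succ, pow_succ, ← ih]
    push_cast
    ring

lemma coprime (j : ℕ) : Nat.Coprime (Zj j).length ((Zj j).count true) := by
  rw [← Nat.isCoprime_iff_coprime]
  refine ⟨-(-1) ^ (j + 1) * (Sj j).count true, (-1) ^ (j + 1) * (Sj j).length, ?_⟩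
  have h := det j
  have h2 : ((-1 : ℤ) ^ (j + 1)) * (-1) ^ (j + 1) = 1 := by
    rw [← pow_add, ← two_mul, pow_mul]; simp
  calc -(-1 : ℤ) ^ (j + 1) * (Sj j).count true * (Zj j).length
        + (-1) ^ (j + 1) * (Sj j).length * (Zj j).count true
      = (-1) ^ (j + 1) * ((Sj j).length * (Zj j).count true
        - (Zj j).length * (Sj j).count true) := by ring
    _ = 1 := by rw [h, h2]

lemma Sj_pos (j : ℕ) : 1 ≤ (Sj j).length := by
  induction j with
  | zero => simp [Sj]
  | succ j ih => rw [Sj_succ]; unfold Zj; simp; omega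

lemma length_Zj_ge (j : ℕ) : j + 2 ≤ (Zj j).length := by
  induction j with
  | zero => simp [Zj, Sj, Tj]
  | succ j ih => rw [length_Zj_succ]; omega

/-! ### the language -/

/-- The language of the binary fixed point. -/
def Lv : Set (List Bool) := {w | ∃ n, w <:+: Sj n}

lemma Lv_factor {u w : List Bool} (h : w ∈ Lv) (hu : u <:+: w) : u ∈ Lv := by
  obtain ⟨n, hn⟩ := h
  exact ⟨n, hu.trans hn⟩

lemma G_infix {u w : List Bool} (h : u <:+: w) : G u <:+: G w := by
  obtain ⟨p, q, rfl⟩ := h
  exact ⟨G p, G q, by simp [G_append]⟩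

lemma Gi_infix (j : ℕ) {u w : List Bool} (h : u <:+: w) : G^[j] u <:+: G^[j] w := by
  obtain ⟨p, q, rfl⟩ := h
  exact ⟨G^[j] p, G^[j] q, by simp [Gi_append]⟩

lemma Lv_G {w : List Bool} (h : w ∈ Lv) : G w ∈ Lv := by
  obtain ⟨n, hn⟩ := h
  refine ⟨n + 1, ?_⟩
  unfold Sj
  rw [Function.iterate_succ_apply']
  exact G_infix hn

lemma BW_level (j : ℕ) (ns : List ℕ) : G^[j] (BW [true] [false] ns) = BW (Sj j) (Tj j) ns := by
  induction ns with
  | nil => simp
  | cons n ns ih =>
    rw [BW_cons, BW_cons, Gi_append, Gi_append, Gi_pw, ih]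
    rw [show [true] ++ [false] = [true, false] from rfl, Zj_eq]
    rfl

/-- the desubstitution identity -/
lemma X_G (ns : List ℕ) (hns : ∀ n ∈ ns, n = 5 ∨ n = 6) :
    ∃ ms : List ℕ, (∀ n ∈ ms, n = 5 ∨ n = 6) ∧
      G [false] ++ G (BW [true] [false] ns) = BW [true] [false] ms ++ G [false] := by
  induction ns with
  | nil => exact ⟨[], by simp, by simp⟩
  | cons n ns ih =>
    obtain ⟨ms, h1, h2⟩ := ih (fun m hm => hns m (by simp [hm]))
    refine ⟨6 :: List.replicate (n - 1) 5 ++ ms, ?_, ?_⟩
    · intro k hk
      simp only [List.cons_append, List.mem_cons, List.mem_append, List.mem_replicate] at hk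
      rcases hk with h | h | h
      · right; exact h
      · left; exact h.2
      · exact h1 k h
    · obtain ⟨k, hk⟩ : ∃ k, n = k + 1 := by
        rcases hns n (by simp) with h | h <;> exact ⟨n - 1, by omega⟩
      subst hk
      rw [Nat.add_sub_cancel, BW_append, List.append_assoc, ← h2]
      rw [BW_cons, G_append, ← List.append_assoc, ← List.append_assoc]
      congr 1
      -- `X g(A(AB)^n) = F(6, 5, ..., 5) X`
      clear hns h1 h2 ih ms
      rw [G_append, G_pw]
      have e0 : G ([true] ++ [false]) = G [true] ++ G [false] := G_append _ _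
      rw [e0]
      induction k with
      | zero => rw [G_true, G_false]; decide
      | succ k ih =>
        rw [pw_succ', ← List.append_assoc, ← List.append_assoc, ← List.append_assoc,
          List.append_assoc (G [false]), ih]
        rw [List.replicate_succ', ← List.cons_append, BW_append]
        simp only [List.append_assoc]
        congr 1

lemma Sj_BW (k : ℕ) : ∃ ns : List ℕ, (∀ n ∈ ns, n = 5 ∨ n = 6) ∧
    Sj k <:+: BW [true] [false] ns := by
  induction k with
  | zero => exact ⟨[5], by simp, [], pw 5 [true, false], rfl⟩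
  | succ k ih =>
    obtain ⟨ns, h1, h2⟩ := ih
    obtain ⟨ms, h3, h4⟩ := X_G ns h1
    refine ⟨ms ++ [5], ?_, ?_⟩
    · intro n hn
      simp only [List.mem_append, List.mem_singleton] at hn
      rcases hn with h | h
      · exact h3 n h
      · left; exact h
    · have e1 : Sj (k + 1) = G (Sj k) := by unfold Sj; rw [Function.iterate_succ_apply']
      rw [e1]
      refine (G_infix h2).trans ?_
      refine (List.infix_append' (G [false]) _ []).trans ?_
      rw [List.append_nil, h4, BW_append]
      exact ⟨[], [true, false], by simp [BW, pw, G, g]⟩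

lemma Sj_prefix (k j : ℕ) : Sj k <+: Sj (k + j) := by
  induction j with
  | zero => exact List.prefix_rfl
  | succ j ih =>
    refine ih.trans ?_
    rw [← Nat.add_assoc, Sj_succ]
    exact List.prefix_append _ _

lemma Lv_BW {w : List Bool} (h : w ∈ Lv) (j : ℕ) : ∃ ns : List ℕ, (∀ n ∈ ns, n = 5 ∨ n = 6) ∧
    w <:+: BW (Sj j) (Tj j) ns := by
  obtain ⟨n, hn⟩ := h
  obtain ⟨ns, h1, h2⟩ := Sj_BW n
  refine ⟨ns, h1, ?_⟩
  refine (hn.trans (Sj_prefix n j).isInfix).trans ?_
  have : Sj (n + j) = G^[j] (Sj n) := by
    unfold Sj; rw [Nat.add_comm, Function.iterate_add_apply]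
  rw [this, ← BW_level]
  exact Gi_infix j h2

/-! ### no cubes of letters -/

/-- recognizes words without `AAA` and `BB` -/
def ok : List Bool → Bool
  | true :: true :: true :: _ => false
  | false :: false :: _ => false
  | _ :: w => ok w
  | [] => true

lemma ok_infix {u w : List Bool} (h : u <:+: w) (hw : ok w = true) : ok u = true := by
  obtain ⟨p, q, rfl⟩ := h
  have h1 : ok (u ++ q) = true := by
    rw [List.append_assoc] at hw
    generalize u ++ q = v at hw
    induction p with
    | nil => exact hw
    | cons x p ih =>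
      apply ih
      rw [List.cons_append] at hw
      generalize p ++ v = r at hw
      unfold ok at hw
      split at hw
      · simp at hw
      · simp at hw
      · rename_i h2 h3
        simp only [List.cons.injEq] at h3
        rw [h3.2]; exact hw
      · simp_all
  clear hw
  induction u with
  | nil => rfl
  | cons x u ih =>
    unfold ok
    split
    · rename_i h2
      rw [List.cons_append] at h1
      simp_all [ok]
    · simp_all [ok]
    · rename_i h2 h3 h4 h5
      simp only [List.cons.injEq] at h5
      obtain ⟨rfl, rfl⟩ := h5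
      apply ih
      unfold ok at h1
      split at h1
      · simp at h1
      · simp at h1
      · rename_i h6 h7
        simp only [List.cons_append, List.cons.injEq] at h7
        rw [h7.2]; exact h1
      · simp_all
    · rfl

lemma ok_tf (W : List Bool) (h : W = [] ∨ ∃ W', W = true :: W') :
    ok (true :: false :: W) = ok W := by
  rcases h with rfl | ⟨W', rfl⟩
  · rfl
  · simp [ok]

lemma ok_pw (n : ℕ) (W : List Bool) (h : W = [] ∨ ∃ W', W = true :: W') :
    ok (pw n [true, false] ++ W) = ok W := by
  induction n with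
  | zero => rfl
  | succ n ih =>
    rw [pw_succ, List.append_assoc]
    simp only [List.cons_append, List.nil_append]
    rw [ok_tf _ ?_, ih]
    cases n with
    | zero => simpa using h
    | succ n => right; exact ⟨false :: (pw n [true, false] ++ W), by rw [pw_succ]; rfl⟩

lemma BW_head (ns : List ℕ) : BW [true] [false] ns = [] ∨
    ∃ W', BW [true] [false] ns = true :: W' := by
  cases ns with
  | nil => left; rfl
  | cons n ns => right; exact ⟨_, by rw [BW_cons]; rfl⟩

lemma ok_BW (ns : List ℕ) (hns : ∀ n ∈ ns, n = 5 ∨ n = 6) :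
    ok (BW [true] [false] ns) = true := by
  induction ns with
  | nil => rfl
  | cons n ns ih =>
    obtain ⟨k, hk⟩ : ∃ k, n = k + 1 := by
      rcases hns n (by simp) with h | h <;> exact ⟨n - 1, by omega⟩
    subst hk
    rw [BW_cons, pw_succ]
    simp only [List.cons_append, List.nil_append, List.append_assoc]
    have h1 : ok (true :: true :: false :: (pw k [true, false] ++ BW [true] [false] ns)) =
        ok (true :: false :: (pw k [true, false] ++ BW [true] [false] ns)) := by
      simp [ok]
    rw [h1, ok_tf, ok_pw _ _ (BW_head ns), ih (fun m hm => hns m (by simp [hm]))]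
    cases k with
    | zero => simpa using BW_head ns
    | succ k => right; exact ⟨false :: (pw k [true, false] ++ _), by rw [pw_succ]; rfl⟩

/-- **Fourth powers in the binary word.** -/
theorem powers_Lv (z : List Bool) (hz : pw 4 z ∈ Lv) (hz0 : z ≠ []) :
    ∃ j, z.count true = (Zj j).count true ∧ z.length = (Zj j).length := by
  have hl : 2 ≤ z.length := by
    by_contra hcon
    have h1 : z.length = 1 := by
      have := List.length_pos_of_ne_nil hz0
      omega
    obtain ⟨c, rfl⟩ := List.length_eq_one_iff.mp h1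
    obtain ⟨ns, h2, h3⟩ := Lv_BW hz 0
    have h4 := ok_infix h3 (ok_BW ns h2)
    cases c <;> simp [pw, ok] at h4
  obtain ⟨j, hj1, hj2⟩ : ∃ j, (Zj j).length ≤ z.length ∧ z.length < (Zj (j + 1)).length := by
    have hex : ∃ j, z.length < (Zj (j + 1)).length :=
      ⟨z.length, by have := length_Zj_ge (z.length + 1); omega⟩
    classical
    refine ⟨Nat.find hex, ?_, Nat.find_spec hex⟩
    by_contra hcon
    push Not at hcon
    rcases Nat.eq_zero_or_pos (Nat.find hex) with h0 | h0
    · rw [h0] at hcon
      simp [Zj, Sj, Tj] at hcon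
      omega
    · apply Nat.find_min hex (m := Nat.find hex - 1) (by omega)
      rw [Nat.sub_add_cancel h0]
      exact hcon
  obtain ⟨s, t, x, y, hxy, h1, h2⟩ := level j
  obtain ⟨ns, h3, h4⟩ := Lv_BW hz j
  rw [length_Zj_succ] at hj2
  exact ⟨j, power_lemma true hxy h1 h2 (coprime j) ns h3 z hj1 hj2 h4⟩

end Pool.Agent.Q102.ClassP
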