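import Pool.Agent.Q102.ClassP.Decode

/-!
# Palindromes in the ternary word; fourth powers in the ternary word
-/

set_option autoImplicit false

namespace Pool.Agent.Q102.ClassP

/-- the common left extension of the images under `g` -/
def wp : List Bool := [false, true, false, true, false, true, false]

/-- palindromes in the binary word -/
def Pn : ℕ → List Bool
  | 0 => [true]
  | n + 1 => wp ++ G (Pn n)

lemma rev_g (v : Bool) : (g v).reverse ++ wp = wp ++ g v := by cases v <;> decide

lemma G_cons (v : Bool) (p : List Bool) : G (v :: p) = g v ++ G p := by simp [G]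
lemma G_single (v : Bool) : G [v] = g v := by simp [G]

lemma rev_G (p : List Bool) : (G p).reverse ++ wp = wp ++ G p.reverse := by
  induction p with
  | nil => simp
  | cons v p ih =>
    rw [G_cons, List.reverse_append, List.append_assoc, rev_g, ← List.append_assoc, ih,
      List.reverse_cons, G_append, G_single, List.append_assoc]

lemma Pn_pal (n : ℕ) : (Pn n).reverse = Pn n := by
  induction n with
  | zero => rfl
  | succ n ih =>
    show (wp ++ G (Pn n)).reverse = wp ++ G (Pn n)
    rw [List.reverse_append, show wp.reverse = wp by decide, rev_G, ih]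

lemma wp_suffix (p : List Bool) : wp <:+ G ([false] ++ p) := by
  induction p using List.reverseRecOn with
  | nil => exact ⟨[true, true], by decide⟩
  | append_singleton p v ih =>
    rw [← List.append_assoc, G_append, G_single]
    obtain ⟨r, hr⟩ := ih
    rw [← hr]
    cases v
    · exact ⟨r ++ wp ++ [true, true], by simp [wp, g, pw]⟩
    · exact ⟨r ++ [false, true], by simp [wp, g]⟩

lemma Tj_last (n : ℕ) : ∃ r, Tj n = r ++ [false] := by
  induction n with
  | zero => exact ⟨[], rfl⟩
  | succ n ih =>
    obtain ⟨r, hr⟩ := ih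
    refine ⟨Sj n ++ pw 3 (Zj n) ++ Sj n ++ r, ?_⟩
    rw [Tj_succ, pw_succ']
    conv_lhs => rw [show Zj n = Sj n ++ Tj n from rfl, hr]
    conv_rhs => rw [show Zj n = Sj n ++ Tj n from rfl, hr]
    simp only [List.append_assoc]

lemma Gi_Sj (n k : ℕ) : G^[n] (Sj k) = Sj (n + k) := by
  unfold Sj; rw [Function.iterate_add_apply]

lemma left_ctx {p : List Bool} (h : p ∈ Lv) : ∃ a, (false :: a) ++ p ∈ Lv := by
  obtain ⟨n, a, b, hab⟩ := h
  obtain ⟨r, hr⟩ := Tj_last n
  refine ⟨a, n + 2, ?_⟩
  have h1 : [false, true] <:+: Sj 2 := by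
    refine ⟨[true], [true, false, true, false, true, false, true, false], ?_⟩
    decide
  have h2 := Gi_infix n h1
  rw [Gi_Sj, show [false, true] = [false] ++ [true] from rfl, Gi_append] at h2
  refine List.IsInfix.trans ?_ h2
  refine ⟨r, b, ?_⟩
  have h3 : G^[n] [false] = r ++ [false] := hr
  have h4 : G^[n] [true] = a ++ p ++ b := hab.symm
  rw [h3, h4]
  simp

lemma right_ctx {p : List Bool} (h : p ∈ Lv) : TT p ++ [0] ∈ Lu := by
  obtain ⟨n, a, b, hab⟩ := h
  obtain ⟨r, hr⟩ := Tj_last n
  refine ⟨n + 1, ?_⟩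
  rw [Sj_succ]
  have h1 : Zj n = a ++ p ++ (b ++ (r ++ [false])) := by
    rw [show Zj n = Sj n ++ Tj n from rfl, hr, ← hab]; simp
  rw [h1, TT_append, TT_append]
  have h2 : ∃ c, TT (b ++ (r ++ [false])) = 0 :: c := by
    rcases hb : b ++ (r ++ [false]) with _ | ⟨v, q⟩
    · simp at hb
    · obtain ⟨d, h3, -⟩ := tau_eq v
      rw [TT_cons, h3]
      exact ⟨d ++ TT q, rfl⟩
  obtain ⟨c, hc⟩ := h2
  rw [hc]
  exact ⟨TT a, c, by simp⟩

lemma Pn_Lv (n : ℕ) : Pn n ∈ Lv := by
  induction n with
  | zero => exact ⟨0, List.infix_rfl⟩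
  | succ n ih =>
    obtain ⟨a, ha⟩ := left_ctx ih
    have h1 := Lv_G ha
    rw [G_append] at h1
    obtain ⟨r, hr⟩ := wp_suffix a
    have h2 : G (false :: a) = r ++ wp := hr.symm
    rw [h2] at h1
    exact Lv_factor h1 ⟨r, [], by simp [Pn]⟩

lemma Sj_Pn (n : ℕ) : Sj n <:+: Pn n := by
  induction n with
  | zero => exact List.infix_rfl
  | succ n ih =>
    have e1 : Sj (n + 1) = G (Sj n) := by unfold Sj; rw [Function.iterate_succ_apply']
    rw [e1]
    exact (G_infix ih).trans ⟨wp, [], by simp [Pn]⟩

lemma TT_rev (p : List Bool) : [0] ++ (TT p).reverse = TT p.reverse ++ [0] := by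
  induction p with
  | nil => rfl
  | cons v p ih =>
    rw [TT_cons, List.reverse_append, ← List.append_assoc, ih, List.reverse_cons, TT_append,
      List.append_assoc, List.append_assoc]
    congr 1
    cases v <;> simp [TT, tau]

/-- palindromes in the ternary word -/
def Qn (n : ℕ) : List (Fin 3) := TT (Pn n) ++ [0]

lemma Qn_pal (n : ℕ) : (Qn n).reverse = Qn n := by
  unfold Qn
  rw [List.reverse_append, List.reverse_singleton, TT_rev, Pn_pal]

lemma Qn_Lu (n : ℕ) : Qn n ∈ Lu := right_ctx (Pn_Lv n)

lemma length_G_ge (p : List Bool) : p.length ≤ (G p).length := by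
  induction p with
  | nil => simp
  | cons v p ih => rw [G_cons]; cases v <;> simp [g] <;> omega

lemma length_TT_mono (p : List Bool) : p.length ≤ (TT p).length := by
  have := length_TT_ge p; omega

lemma length_Pn (n : ℕ) : (Pn n).length < (Pn (n + 1)).length := by
  have := length_G_ge (Pn n)
  simp only [Pn, List.length_append, wp, List.length_cons, List.length_nil]
  omega

lemma TT_length (x : List Bool) : (TT x).length + 3 * x.count true = 5 * x.length := by
  induction x with
  | nil => rfl
  | cons v x ih => rw [TT_cons]; cases v <;> simp [tau] <;> omega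

lemma Lu_rev {w : List (Fin 3)} (h : w ∈ Lu) : w.reverse ∈ Lu := by
  obtain ⟨n, hn⟩ := h
  have h1 : w <:+: Qn n := (hn.trans (TT_infix (Sj_Pn n))).trans ⟨[], [0], by simp [Qn]⟩
  have h2 : w.reverse <:+: Qn n := by
    rw [← Qn_pal n]; exact List.reverse_infix.mpr h1
  exact Lu_factor (Qn_Lu n) h2

lemma pw_four {α : Type} (y : List α) : pw 4 y = y ++ (y ++ pw 2 y) := by
  rw [show (4 : ℕ) = 2 + 1 + 1 from rfl, pw_succ, pw_succ]

lemma powers_Lu_aux (y : List (Fin 3)) (h : pw 4 y ∈ Lu) (h0 : (0 : Fin 3) ∈ y)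
    (hlast : y.getLast? ≠ some 0) :
    ∃ j, ∀ ℓ, y.count ℓ = (TT (Zj j)).count ℓ := by
  obtain ⟨s, y', rfl, hs⟩ := List.eq_append_cons_of_mem h0
  have h1 : 0 :: (y' ++ s) ++ [0] ∈ Lu := by
    refine Lu_factor h ⟨s, y' ++ pw 2 (s ++ 0 :: y'), ?_⟩
    rw [pw_four]
    simp
  obtain ⟨k, hk⟩ := cut2 h1
  have hlast' : (0 :: y').getLast? ≠ some 0 := by
    rwa [List.getLast?_append_of_ne_nil _ (by simp)] at hlast
  have hD : D (s ++ 0 :: y') none = k := by
    have h2 : D (0 :: (y' ++ s)) none = k := by rw [hk, D_TT]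
    rw [← h2, show (0 : Fin 3) :: (y' ++ s) = (0 :: y') ++ s from rfl, D_append, D_append,
      D_no_zero s hs, D_no_zero s hs, List.nil_append, List.append_nil]
    exact D_last _ _ _ hlast'
  have hpk : pw 4 k ∈ Lv := by
    have h3 := D_Lu h
    rwa [D_pw _ _ hlast, hD] at h3
  have hk0 : k ≠ [] := by
    rintro rfl; simp at hk
  obtain ⟨j, hj1, hj2⟩ := powers_Lv k hpk hk0
  refine ⟨j, fun ℓ => ?_⟩
  have h4 : (s ++ 0 :: y').count ℓ = (TT k).count ℓ := by
    rw [← hk]
    rw [show (0 : Fin 3) :: (y' ++ s) = (0 :: y') ++ s from rfl, List.count_append,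
      List.count_append, Nat.add_comm]
  rw [h4, count_TT, count_TT, hj1, hj2]

/-- **Fourth powers in the ternary word.** -/
theorem powers_Lu (y : List (Fin 3)) (h : pw 4 y ∈ Lu) :
    y = [] ∨ y = [2] ∨ ∃ j, ∀ ℓ, y.count ℓ = (TT (Zj j)).count ℓ := by
  by_cases h0 : (0 : Fin 3) ∈ y
  · right; right
    by_cases hlast : y.getLast? = some 0
    · have h1 : pw 4 y.reverse ∈ Lu := by
        rw [← reverse_pw]; exact Lu_rev h
      have h2 : y.reverse.getLast? ≠ some 0 := by
        intro h3
        apply not_zero_zero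
        obtain ⟨a, ha⟩ := List.getLast?_eq_some_iff.mp hlast
        obtain ⟨b, hb⟩ := List.getLast?_eq_some_iff.mp h3
        have hb' : y = 0 :: b.reverse := by
          have := congrArg List.reverse hb
          simpa using this
        refine Lu_factor h ⟨a, b.reverse ++ pw 2 y, ?_⟩
        rw [pw_four]
        conv_rhs => rw [← List.append_assoc]
        conv_rhs => enter [1, 1]; rw [ha]
        conv_rhs => enter [1, 2]; rw [hb']
        simp
      obtain ⟨j, hj⟩ := powers_Lu_aux y.reverse h1 (by simpa using h0) h2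
      exact ⟨j, fun ℓ => by rw [← hj ℓ, List.count_reverse]⟩
    · exact powers_Lu_aux y h h0 hlast
  · have h1 : (0 : Fin 3) ∉ pw 4 y := by
      intro h2
      rw [← List.count_pos_iff, count_pw, List.count_eq_zero.mpr h0] at h2
      simp at h2
    rcases eq_or_ne y [] with hy | hy
    · left; exact hy
    · have hly := List.length_pos_of_ne_nil hy
      rcases no_zero h h1 with h2 | h2
      · have := h2.length_le
        simp at this; omega
      · have h3 := h2.length_le
        simp only [length_pw, List.length_cons, List.length_nil] at h3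
        have h4 : y.length = 1 := by omega
        obtain ⟨c, rfl⟩ := List.length_eq_one_iff.mp h4
        have h5 : c ∈ ([2, 2, 2, 2] : List (Fin 3)) := h2.subset (by simp [pw])
        right; left
        simp at h5
        rw [h5]

end Pool.Agent.Q102.ClassP
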