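import Pool.Agent.Q102.ClassP.Words

/-!
# The power lemma: fourth powers in `∏ S (ST)^{n_t}`, `n_t ∈ {5, 6}`
-/

set_option autoImplicit false

namespace Pool.Agent.Q102.ClassP

section power
variable {α : Type}

/-- the product of the words `S (ST)^n` -/
def BW (S T : List α) (ns : List ℕ) : List α := ns.flatMap (fun n => S ++ pw n (S ++ T))

@[simp] lemma BW_nil (S T : List α) : BW S T [] = [] := rfl

lemma BW_cons (S T : List α) (n : ℕ) (ns : List ℕ) :
    BW S T (n :: ns) = (S ++ pw n (S ++ T)) ++ BW S T ns := by simp [BW]

lemma BW_append (S T : List α) (ns ms : List ℕ) :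
    BW S T (ns ++ ms) = BW S T ns ++ BW S T ms := by simp [BW]

variable {S T s t : List α} {x y : α}

lemma BW_eq_PI (hST : S ++ T = s ++ x :: y :: t) (ns : List ℕ) (hns : ∀ n ∈ ns, n = 5 ∨ n = 6) :
    BW S T ns = PI (S ++ s) (fun n => t ++ pw (n - 1) (S ++ T)) x y ns := by
  induction ns with
  | nil => rfl
  | cons n ns ih =>
    rw [BW_cons, PI_cons, ih (fun m hm => hns m (by simp [hm]))]
    congr 1
    obtain ⟨k, hk⟩ : ∃ k, n = k + 1 := by
      rcases hns n (by simp) with h | h <;> exact ⟨n - 1, by omega⟩
    rw [hk, pw_succ, Nat.add_sub_cancel]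
    simp only [List.append_assoc]
    congr 1
    rw [← List.append_assoc, hST]
    simp

lemma shift_eq (hTS : T ++ S = s ++ y :: x :: t) (ns : List ℕ) (hns : ∀ n ∈ ns, n = 5 ∨ n = 6) :
    (S ++ T) ++ BW S T ns = PI (S ++ s) (fun n => t ++ pw (n - 1) (S ++ T)) y x ns ++ (S ++ T) := by
  induction ns with
  | nil => simp
  | cons n ns ih =>
    rw [BW_cons, PI_cons, List.append_assoc _ _ (S ++ T),
      ← ih (fun m hm => hns m (by simp [hm]))]
    obtain ⟨k, hk⟩ : ∃ k, n = k + 1 := by
      rcases hns n (by simp) with h | h <;> exact ⟨n - 1, by omega⟩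
    rw [hk, pw_succ', Nat.add_sub_cancel]
    have e : (S ++ T) ++ S = S ++ (s ++ y :: x :: t) := by rw [List.append_assoc, hTS]
    calc (S ++ T) ++ (S ++ (pw k (S ++ T) ++ (S ++ T)) ++ BW S T ns)
        = ((S ++ T) ++ S) ++ (pw k (S ++ T) ++ ((S ++ T) ++ BW S T ns)) := by
          simp only [List.append_assoc]
      _ = _ := by rw [e]; simp only [List.append_assoc, List.cons_append]

lemma length_BW_cons (n : ℕ) (ns : List ℕ) :
    (BW S T (n :: ns)).length = S.length + n * (S ++ T).length + (BW S T ns).length := by
  rw [BW_cons]; simp; ring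

/-- Long windows of `∏ S Z^{n_t}` contain a block `Z`. -/
lemma exists_block (ns : List ℕ) (hns : ∀ n ∈ ns, n = 5 ∨ n = 6) (hZ : 0 < (S ++ T).length)
    (o : ℕ) (ho : o + 3 * (S ++ T).length ≤ (BW S T ns).length) :
    ∃ k, o ≤ k ∧ k ≤ o + 2 * (S ++ T).length ∧
      ∀ i < (S ++ T).length, (BW S T ns)[k + i]? = (S ++ T)[i]? := by
  have hS : S.length ≤ (S ++ T).length := by simp
  induction ns generalizing o with
  | nil => simp only [BW_nil, List.length_nil] at ho; omega
  | cons n ns ih =>
    rw [length_BW_cons] at ho
    have hlen : (S ++ pw n (S ++ T)).length = S.length + n * (S ++ T).length := by simp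
    have hn : 1 ≤ n := by rcases hns n (by simp) with h | h <;> omega
    by_cases h1 : S.length + n * (S ++ T).length ≤ o
    · obtain ⟨k, h2, h3, h4⟩ := ih (fun m hm => hns m (by simp [hm]))
        (o - (S.length + n * (S ++ T).length)) (by omega)
      refine ⟨k + (S.length + n * (S ++ T).length), by omega, by omega, fun i hi => ?_⟩
      rw [BW_cons, List.getElem?_append_right (by rw [hlen]; omega), hlen]
      rw [show k + (S.length + n * (S ++ T).length) + i - (S.length + n * (S ++ T).length) = k + i
        by omega]
      exact h4 i hi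
    · push Not at h1
      by_cases h2 : o ≤ S.length + (n - 1) * (S ++ T).length
      · -- a block inside the first segment
        have hblock : ∀ r, r + 1 ≤ n → ∀ i < (S ++ T).length,
            (BW S T (n :: ns))[S.length + r * (S ++ T).length + i]? = (S ++ T)[i]? := by
          intro r hr i hi
          have hb : r * (S ++ T).length + i < n * (S ++ T).length := by
            calc r * (S ++ T).length + i < r * (S ++ T).length + (S ++ T).length := by omega
              _ = (r + 1) * (S ++ T).length := by ring
              _ ≤ n * (S ++ T).length := Nat.mul_le_mul_right _ hr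
          rw [BW_cons, List.getElem?_append_left (by rw [hlen]; omega),
            List.getElem?_append_right (by omega)]
          rw [show S.length + r * (S ++ T).length + i - S.length = r * (S ++ T).length + i by omega,
            getElem?_pw _ _ _ hb]
          congr 1
          rw [Nat.mul_comm, Nat.mul_add_mod, Nat.mod_eq_of_lt hi]
        by_cases h3 : o ≤ S.length
        · refine ⟨S.length + 0 * (S ++ T).length, by omega, by omega, hblock 0 (by omega)⟩
        · push Not at h3
          -- r = ⌈(o - |S|)/N⌉
          obtain ⟨r, hr1, hr2⟩ : ∃ r, o ≤ S.length + r * (S ++ T).length ∧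
              S.length + r * (S ++ T).length < o + (S ++ T).length := by
            refine ⟨(o - S.length + ((S ++ T).length - 1)) / (S ++ T).length, ?_, ?_⟩
            · have := Nat.div_add_mod (o - S.length + ((S ++ T).length - 1)) (S ++ T).length
              have h5 := Nat.mod_lt (o - S.length + ((S ++ T).length - 1)) hZ
              rw [Nat.mul_comm] at this
              omega
            · have := Nat.div_mul_le_self (o - S.length + ((S ++ T).length - 1)) (S ++ T).length
              omega
          have hrn : r + 1 ≤ n := by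
            by_contra hc
            have : n ≤ r := by omega
            have h6 : n * (S ++ T).length ≤ r * (S ++ T).length := Nat.mul_le_mul_right _ this
            have h7 : (n - 1) * (S ++ T).length + (S ++ T).length = n * (S ++ T).length := by
              rw [← Nat.succ_mul]; congr 1; omega
            omega
          exact ⟨S.length + r * (S ++ T).length, hr1, by omega, hblock r hrn⟩
      · push Not at h2
        have h7 : (n - 1) * (S ++ T).length + (S ++ T).length = n * (S ++ T).length := by
          rw [← Nat.succ_mul]; congr 1; omega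
        cases ns with
        | nil => simp only [BW_nil, List.length_nil] at ho; omega
        | cons n' ns' =>
          refine ⟨S.length + n * (S ++ T).length + S.length, by omega, by omega, fun i hi => ?_⟩
          rw [BW_cons, List.getElem?_append_right (by rw [hlen]; omega), hlen]
          rw [show S.length + n * (S ++ T).length + S.length + i
            - (S.length + n * (S ++ T).length) = S.length + i by omega]
          have hn' : 1 ≤ n' := by rcases hns n' (by simp) with h | h <;> omega
          have hb : i < n' * (S ++ T).length := by nlinarith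
          rw [BW_cons, List.getElem?_append_left (by
            rw [List.length_append, length_pw]; omega), List.getElem?_append_right (by omega),
            Nat.add_sub_cancel_left, getElem?_pw _ _ _ hb, Nat.mod_eq_of_lt hi]

/-- **Power lemma.** -/
theorem power_lemma [DecidableEq α] (a : α) (hxy : x ≠ y) (hST : S ++ T = s ++ x :: y :: t)
    (hTS : T ++ S = s ++ y :: x :: t)
    (hco : Nat.Coprime (S ++ T).length ((S ++ T).count a))
    (ns : List ℕ) (hns : ∀ n ∈ ns, n = 5 ∨ n = 6) (z : List α)
    (hz1 : (S ++ T).length ≤ z.length) (hz2 : z.length < S.length + 5 * (S ++ T).length)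
    (hz : pw 4 z <:+: BW S T ns) :
    z.count a = (S ++ T).count a ∧ z.length = (S ++ T).length := by
  obtain ⟨N, hN⟩ : ∃ N, N = (S ++ T).length := ⟨_, rfl⟩
  obtain ⟨ρ, hρ⟩ : ∃ ρ, ρ = z.length := ⟨_, rfl⟩
  have hN2 : 2 ≤ N := by rw [hN, hST]; simp; omega
  have hSN : S.length ≤ N := by rw [hN]; simp
  have hsN : s.length + 2 ≤ N := by rw [hN, hST]; simp
  rw [← hN, ← hρ] at hz1 hz2
  obtain ⟨p, q, hpq⟩ := hz
  have hpq' : p ++ (pw 4 z ++ q) = BW S T ns := by rw [← hpq, List.append_assoc]
  have hW : ∀ i < 4 * ρ, (BW S T ns)[p.length + i]? = z[i % ρ]? := by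
    intro i hi
    rw [← hpq', List.getElem?_append_right (by omega), Nat.add_sub_cancel_left,
      List.getElem?_append_left (by rw [length_pw, ← hρ]; exact hi),
      getElem?_pw _ _ _ (by rw [← hρ]; exact hi), ← hρ]
  have hlenPI : p.length + 4 * ρ ≤ (BW S T ns).length := by
    rw [← hpq']; simp [← hρ]
  -- breaks
  have hbreak : ∀ i, N ≤ i → i < (BW S T ns).length →
      ((BW S T ns)[i]? ≠ (BW S T ns)[i - N]? ↔
        E (S ++ s) (fun n => t ++ pw (n - 1) (S ++ T)) x y ns i) := by
    intro i hi1 hi2
    unfold E
    rw [← BW_eq_PI hST ns hns]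
    have h1 : (BW S T ns)[i - N]? =
        (PI (S ++ s) (fun n => t ++ pw (n - 1) (S ++ T)) y x ns)[i]? := by
      have h2 : (BW S T ns)[i - N]? = ((S ++ T) ++ BW S T ns)[i]? := by
        rw [List.getElem?_append_right (by rw [← hN]; exact hi1), ← hN]
      rw [h2, shift_eq hTS ns hns, List.getElem?_append_left]
      rw [← length_PI (S ++ s) _ x y y x, ← BW_eq_PI hST ns hns]
      exact hi2
    rw [h1]
  have hbl5 : ∀ n ∈ ns, S.length + 5 * N ≤ bl (S ++ s) (fun n => t ++ pw (n - 1) (S ++ T)) n := by
    intro n hn
    have h1 : N = s.length + 2 + t.length := by rw [hN, hST]; simp; omega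
    unfold bl
    simp only [List.length_append, length_pw] at *
    rcases hns n hn with h | h <;> subst h <;> simp only [Nat.add_one_sub_one] <;> omega
  have hbl6 : ∀ n ∈ ns, bl (S ++ s) (fun n => t ++ pw (n - 1) (S ++ T)) n ≤ 7 * N := by
    intro n hn
    have h1 : N = s.length + 2 + t.length := by rw [hN, hST]; simp; omega
    unfold bl
    simp only [List.length_append, length_pw] at *
    rcases hns n hn with h | h <;> subst h <;> simp only [Nat.add_one_sub_one] <;> omega
  -- the fourth power has period N
  have hper : ∀ i, N ≤ i → i < 4 * ρ → z[i % ρ]? = z[(i - N) % ρ]? := by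
    by_contra hcon
    push Not at hcon
    classical
    obtain ⟨hi1, hi2, hi3⟩ := Nat.find_spec hcon
    have hmin : ∀ j < Nat.find hcon, ¬ (N ≤ j ∧ j < 4 * ρ ∧ z[j % ρ]? ≠ z[(j - N) % ρ]?) :=
      fun j hj => Nat.find_min hcon hj
    generalize Nat.find hcon = i at hi1 hi2 hi3 hmin
    have hlt : i < ρ + N := by
      by_contra hc
      push Not at hc
      apply hmin (i - ρ) (by omega)
      refine ⟨by omega, by omega, ?_⟩
      have e1 : (i - ρ) % ρ = i % ρ := (Nat.mod_eq_sub_mod (by omega)).symm
      have e2 : (i - ρ - N) % ρ = (i - N) % ρ := by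
        rw [show i - ρ - N = i - N - ρ by omega]
        exact (Nat.mod_eq_sub_mod (by omega)).symm
      rw [e1, e2]; exact hi3
    have e1 : (i + ρ) % ρ = i % ρ := by simp
    have e2 : (i + ρ - N) % ρ = (i - N) % ρ := by
      rw [show i + ρ - N = i - N + ρ by omega]; simp
    have b1 : E (S ++ s) (fun n => t ++ pw (n - 1) (S ++ T)) x y ns (p.length + i) := by
      rw [← hbreak _ (by omega) (by omega), hW _ (by omega),
        show p.length + i - N = p.length + (i - N) by omega, hW _ (by omega)]
      exact hi3
    have b2 : E (S ++ s) (fun n => t ++ pw (n - 1) (S ++ T)) x y ns (p.length + (i + ρ)) := by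
      rw [← hbreak _ (by omega) (by omega), hW _ (by omega),
        show p.length + (i + ρ) - N = p.length + (i + ρ - N) by omega, hW _ (by omega), e1, e2]
      exact hi3
    have := E_far _ _ x y hxy _ ns hbl5 (p.length + i) (p.length + (i + ρ)) (by omega) b1 b2 (by
      rw [← BW_eq_PI hST ns hns, hW _ (by omega), hW _ (by omega), e1])
    omega
  -- it contains the word Z
  obtain ⟨k, hk1, hk2, hk3⟩ := exists_block ns hns (by omega : 0 < (S ++ T).length) p.length
    (by rw [← hN]; omega)
  rw [← hN] at hk2 hk3
  obtain ⟨e, he⟩ : ∃ e, k = p.length + e := ⟨k - p.length, by omega⟩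
  subst he
  have hZ : ∀ i, e + i < 4 * ρ → z[(e + i) % ρ]? = (S ++ T)[i % N]? := by
    intro i
    induction i using Nat.strong_induction_on with
    | _ i ih =>
      intro hi
      by_cases h1 : i < N
      · rw [Nat.mod_eq_of_lt h1, ← hk3 i h1, ← hW _ hi, Nat.add_assoc]
      · push Not at h1
        rw [hper _ (by omega) hi, show e + i - N = e + (i - N) by omega, ih (i - N) (by omega)
          (by omega), ← Nat.mod_eq_sub_mod h1]
  -- the remainder of ρ modulo N is zero
  have hr0 : ρ % N = 0 := by
    apply rotate_eq_self a (S ++ T) (ρ % N) (by rw [← hN]; exact Nat.mod_lt _ (by omega)) hco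
    apply List.ext_getElem?
    intro i
    by_cases hi : i < N
    · rw [List.getElem?_rotate (by rw [← hN]; exact hi), ← hN, Nat.add_mod_mod]
      rw [← hZ (i + ρ) (by omega), ← Nat.add_assoc, Nat.add_mod_right, hZ i (by omega),
        Nat.mod_eq_of_lt hi]
    · push Not at hi
      rw [List.getElem?_eq_none (by rw [List.length_rotate, ← hN]; exact hi),
        List.getElem?_eq_none (by rw [← hN]; exact hi)]
  obtain ⟨m, hm⟩ : N ∣ ρ := Nat.dvd_of_mod_eq_zero hr0
  have hrot : z.rotate e = pw m (S ++ T) := by
    apply List.ext_getElem?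
    intro i
    by_cases hi : i < ρ
    · rw [List.getElem?_rotate (by rw [← hρ]; exact hi), ← hρ,
        getElem?_pw _ _ _ (by rw [← hN, Nat.mul_comm, ← hm]; exact hi), ← hN, Nat.add_comm i e,
        hZ i (by omega)]
    · push Not at hi
      rw [List.getElem?_eq_none (by rw [List.length_rotate, ← hρ]; exact hi),
        List.getElem?_eq_none (by rw [length_pw, ← hN, Nat.mul_comm, ← hm]; exact hi)]
  have hm1 : m = 1 := by
    have hm0 : m ≠ 0 := by rintro rfl; omega
    by_contra hne
    have hm2 : 2 * N ≤ ρ := by rw [hm, Nat.mul_comm]; exact Nat.mul_le_mul_left _ (by omega)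
    obtain ⟨i, h1, h2, h3⟩ := E_exists (S ++ s) (fun n => t ++ pw (n - 1) (S ++ T)) x y hxy (7 * N)
      ns hbl6 (p.length + N) (by rw [← BW_eq_PI hST ns hns]; omega) (by omega)
    rw [← hbreak i (by omega) (by omega)] at h3
    apply h3
    obtain ⟨j, hj⟩ : ∃ j, i = p.length + j := ⟨i - p.length, by omega⟩
    subst hj
    rw [hW _ (by omega), show p.length + j - N = p.length + (j - N) by omega, hW _ (by omega)]
    exact hper j (by omega) (by omega)
  subst hm1
  constructor
  · have h1 := (List.rotate_perm z e).count_eq a
    rw [← h1, hrot, count_pw, one_mul]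
  · rw [← hρ, ← hN]; omega

end power

end Pool.Agent.Q102.ClassP
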