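import Mathlib

/-!
# Words: powers, commuting words, breaks of the period in `∏ S (ST)^n`
-/

set_option autoImplicit false

namespace Pool.Agent.Q102.ClassP

/-- power of a word -/
def pw {α : Type} (k : ℕ) (z : List α) : List α := (List.replicate k z).flatten

section pw
variable {α β : Type}

@[simp] lemma pw_zero (z : List α) : pw 0 z = [] := rfl

lemma pw_succ (k : ℕ) (z : List α) : pw (k + 1) z = z ++ pw k z := by
  simp [pw, List.replicate_succ]

lemma pw_succ' (k : ℕ) (z : List α) : pw (k + 1) z = pw k z ++ z := by
  induction k with
  | zero => simp [pw_succ]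
  | succ k ih => rw [pw_succ (k + 1), ih, ← List.append_assoc, ← pw_succ, ih]

@[simp] lemma pw_nil (k : ℕ) : pw k ([] : List α) = [] := by
  induction k with
  | zero => rfl
  | succ k ih => rw [pw_succ, ih]; rfl

@[simp] lemma length_pw (k : ℕ) (z : List α) : (pw k z).length = k * z.length := by
  induction k with
  | zero => simp
  | succ k ih => rw [pw_succ, List.length_append, ih]; ring

lemma count_pw [DecidableEq α] (a : α) (k : ℕ) (z : List α) :
    (pw k z).count a = k * z.count a := by
  induction k with
  | zero => simp
  | succ k ih => rw [pw_succ, List.count_append, ih]; ring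

lemma flatMap_pw (f : α → List β) (k : ℕ) (z : List α) :
    (pw k z).flatMap f = pw k (z.flatMap f) := by
  induction k with
  | zero => simp
  | succ k ih => rw [pw_succ, pw_succ, List.flatMap_append, ih]

lemma reverse_pw (k : ℕ) (z : List α) : (pw k z).reverse = pw k z.reverse := by
  induction k with
  | zero => simp
  | succ k ih => rw [pw_succ, pw_succ', List.reverse_append, ih]

lemma getElem?_pw (k : ℕ) (z : List α) (i : ℕ) (h : i < k * z.length) :
    (pw k z)[i]? = z[i % z.length]? := by
  induction k generalizing i with
  | zero => simp at h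
  | succ k ih =>
    rw [pw_succ]
    by_cases hi : i < z.length
    · rw [List.getElem?_append_left hi, Nat.mod_eq_of_lt hi]
    · push Not at hi
      rw [List.getElem?_append_right hi, ih, Nat.mod_eq_sub_mod hi]
      rw [add_mul, one_mul] at h
      omega

end pw

section comm
variable {α : Type} [DecidableEq α]

/-- commuting words have proportional letter counts -/
lemma comm_count (a : α) : ∀ (n : ℕ) (u v : List α), u.length + v.length ≤ n → u ++ v = v ++ u →
    v.length * u.count a = u.length * v.count a := by
  intro n
  induction n with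
  | zero =>
    intro u v h _
    have h1 : u = [] := List.eq_nil_of_length_eq_zero (by omega)
    have h2 : v = [] := List.eq_nil_of_length_eq_zero (by omega)
    subst h1 h2; simp
  | succ n ih =>
    have key : ∀ u v : List α, u.length ≤ v.length → u.length + v.length ≤ n + 1 →
        u ++ v = v ++ u → v.length * u.count a = u.length * v.count a := by
      intro u v huv h he
      rcases eq_or_ne u [] with hu | hu
      · subst hu; simp
      · have hp : u <+: v := by
          apply List.prefix_of_prefix_length_le (l₃ := u ++ v) (List.prefix_append u v) _ huv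
          rw [he]; exact List.prefix_append v u
        obtain ⟨w, hw⟩ := hp
        subst hw
        have hul : 0 < u.length := List.length_pos_of_ne_nil hu
        rw [List.append_assoc] at he
        have he2 : u ++ w = w ++ u := by
          have := List.append_cancel_left he
          exact this
        have := ih u w (by simp only [List.length_append] at h; omega) he2
        simp only [List.length_append, List.count_append, add_mul, mul_add]
        rw [this]
    intro u v h he
    rcases le_total u.length v.length with huv | huv
    · exact key u v huv h he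
    · exact (key v u huv (by omega) he.symm).symm

/-- a word whose length is coprime to a letter count is not a proper rotation of itself -/
lemma rotate_eq_self (a : α) (Z : List α) (r : ℕ) (hr : r < Z.length)
    (hco : Nat.Coprime Z.length (Z.count a)) (h : Z.rotate r = Z) : r = 0 := by
  have e1 : Z.drop r ++ Z.take r = Z.take r ++ Z.drop r := by
    rw [List.take_append_drop, ← List.rotate_eq_drop_append_take hr.le]; exact h
  have e2 := comm_count a _ (Z.take r) (Z.drop r) le_rfl e1.symm
  have l1 : (Z.take r).length = r := by simp [hr.le]
  have l2 : (Z.drop r).length = Z.length - r := by simp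
  have l3 : Z.count a = (Z.take r).count a + (Z.drop r).count a := by
    rw [← List.count_append, List.take_append_drop]
  rw [l1, l2] at e2
  have e3 : r * Z.count a = Z.length * (Z.take r).count a := by
    obtain ⟨d, hd⟩ : ∃ d, Z.length = r + d := ⟨Z.length - r, by omega⟩
    rw [hd] at e2 ⊢
    rw [l3, mul_add, add_mul, ← e2]
    congr 2
    omega
  have e4 : Z.length ∣ r * Z.count a := ⟨_, e3⟩
  have e5 : Z.length ∣ r := hco.dvd_of_dvd_mul_right e4
  exact Nat.eq_zero_of_dvd_of_lt e5 hr

end comm

/-! ### Products of blocks that differ from another product at pairs of positions -/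

section brk
variable {α : Type} (U : List α) (R : ℕ → List α)

/-- the product of the words `U x y R(n)` -/
def PI (x y : α) (ns : List ℕ) : List α := ns.flatMap (fun n => U ++ x :: y :: R n)

@[simp] lemma PI_nil (x y : α) : PI U R x y [] = [] := rfl

lemma PI_cons (x y : α) (n : ℕ) (ns : List ℕ) :
    PI U R x y (n :: ns) = (U ++ x :: y :: R n) ++ PI U R x y ns := by
  simp [PI]

/-- length of a block -/
def bl (n : ℕ) : ℕ := U.length + 2 + (R n).length

lemma length_PI_cons (x y : α) (n : ℕ) (ns : List ℕ) :
    (PI U R x y (n :: ns)).length = bl U R n + (PI U R x y ns).length := by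
  rw [PI_cons, List.length_append]; simp [bl]; ring

lemma length_PI (x y x' y' : α) (ns : List ℕ) :
    (PI U R x y ns).length = (PI U R x' y' ns).length := by
  induction ns with
  | nil => rfl
  | cons n ns ih => rw [length_PI_cons, length_PI_cons, ih]

/-- The two products differ at position `i`. -/
def E (x y : α) (ns : List ℕ) (i : ℕ) : Prop := (PI U R x y ns)[i]? ≠ (PI U R y x ns)[i]?

lemma getElem?_PI_right (x y : α) (n : ℕ) (ns : List ℕ) (i : ℕ) (h : bl U R n ≤ i) :
    (PI U R x y (n :: ns))[i]? = (PI U R x y ns)[i - bl U R n]? := by
  rw [PI_cons]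
  have hl : (U ++ x :: y :: R n).length = bl U R n := by simp [bl]; ring
  rw [List.getElem?_append_right (by rw [hl]; exact h), hl]

lemma getElem?_PI_left (x y : α) (n : ℕ) (ns : List ℕ) (i : ℕ) (h : i < bl U R n) :
    (PI U R x y (n :: ns))[i]? = (U ++ x :: y :: R n)[i]? := by
  rw [PI_cons]
  have hl : (U ++ x :: y :: R n).length = bl U R n := by simp [bl]; ring
  rw [List.getElem?_append_left (by rw [hl]; exact h)]

lemma getElem?_PI_at (x y : α) (n : ℕ) (ns : List ℕ) :
    (PI U R x y (n :: ns))[U.length]? = some x := by
  rw [getElem?_PI_left _ _ _ _ _ _ _ (by unfold bl; omega)]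
  rw [List.getElem?_append_right le_rfl]; simp

lemma getElem?_PI_at1 (x y : α) (n : ℕ) (ns : List ℕ) :
    (PI U R x y (n :: ns))[U.length + 1]? = some y := by
  rw [getElem?_PI_left _ _ _ _ _ _ _ (by unfold bl; omega)]
  rw [List.getElem?_append_right (by omega)]; simp

lemma E_cons (x y : α) (n : ℕ) (ns : List ℕ) (i : ℕ) (h : E U R x y (n :: ns) i) :
    (i = U.length ∨ i = U.length + 1) ∨ (bl U R n ≤ i ∧ E U R x y ns (i - bl U R n)) := by
  unfold E at h ⊢
  by_cases hi : bl U R n ≤ i
  · right
    rw [getElem?_PI_right _ _ _ _ _ _ _ hi, getElem?_PI_right _ _ _ _ _ _ _ hi] at h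
    exact ⟨hi, h⟩
  · left
    push Not at hi
    rw [getElem?_PI_left _ _ _ _ _ _ _ hi, getElem?_PI_left _ _ _ _ _ _ _ hi] at h
    by_contra hcon
    push Not at hcon
    apply h
    rcases lt_or_ge i U.length with h1 | h1
    · rw [List.getElem?_append_left h1, List.getElem?_append_left h1]
    · rw [List.getElem?_append_right h1, List.getElem?_append_right h1]
      obtain ⟨j, hj⟩ : ∃ j, i - U.length = j + 2 := ⟨i - U.length - 2, by omega⟩
      rw [hj]; simp

lemma E_at (x y : α) (hxy : x ≠ y) (n : ℕ) (ns : List ℕ) : E U R x y (n :: ns) U.length := by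
  unfold E
  rw [getElem?_PI_at, getElem?_PI_at]
  simpa using hxy

/-- the first difference -/
lemma E_ge (x y : α) (ns : List ℕ) (i : ℕ) (h : E U R x y ns i) :
    U.length ≤ i ∧ (i = U.length → (PI U R x y ns)[i]? = some x) := by
  induction ns generalizing i with
  | nil => exact absurd rfl h
  | cons n ns ih =>
    rcases E_cons _ _ _ _ _ _ _ h with h1 | ⟨h1, h2⟩
    · refine ⟨by omega, fun h3 => ?_⟩
      subst h3
      exact getElem?_PI_at _ _ _ _ _ _
    · have := ih _ h2
      unfold bl at h1 this
      exact ⟨by omega, fun h3 => by omega⟩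

/-- two differences of the same type are far away from each other -/
lemma E_far (x y : α) (hxy : x ≠ y) (Q : ℕ) (ns : List ℕ) (hQ : ∀ n ∈ ns, Q ≤ bl U R n)
    (i j : ℕ) (hij : i < j) (hi : E U R x y ns i) (hj : E U R x y ns j)
    (he : (PI U R x y ns)[i]? = (PI U R x y ns)[j]?) : i + Q ≤ j := by
  induction ns generalizing i j with
  | nil => exact absurd rfl hi
  | cons n ns ih =>
    have hQn := hQ n (by simp)
    rcases E_cons _ _ _ _ _ _ _ hi with h1 | ⟨h1, h2⟩
    · rcases E_cons _ _ _ _ _ _ _ hj with h3 | ⟨h3, h4⟩
      · -- both in the first block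
        exfalso
        have h5 : i = U.length := by omega
        have h6 : j = U.length + 1 := by omega
        rw [h5, h6, getElem?_PI_at, getElem?_PI_at1] at he
        simp only [Option.some.injEq] at he
        exact hxy he
      · have h5 := E_ge _ _ _ _ _ _ h4
        rcases h1 with h1 | h1
        · omega
        · by_cases h6 : j - bl U R n = U.length
          · exfalso
            rw [h1, getElem?_PI_at1, getElem?_PI_right _ _ _ _ _ _ _ h3, h5.2 h6] at he
            simp only [Option.some.injEq] at he
            exact hxy he.symm
          · omega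
    · rcases E_cons _ _ _ _ _ _ _ hj with h3 | ⟨h3, h4⟩
      · unfold bl at h1; omega
      · have := ih (fun m hm => hQ m (by simp [hm])) (i - bl U R n) (j - bl U R n) (by omega) h2 h4
          (by rw [getElem?_PI_right _ _ _ _ _ _ _ h1, getElem?_PI_right _ _ _ _ _ _ _ h3] at he
              exact he)
        omega

/-- long windows contain a difference -/
lemma E_exists (x y : α) (hxy : x ≠ y) (M : ℕ) (ns : List ℕ) (hM : ∀ n ∈ ns, bl U R n ≤ M)
    (o : ℕ) (ho : o + M ≤ (PI U R x y ns).length) (hM0 : 0 < M) :
    ∃ i, o ≤ i ∧ i < o + M ∧ E U R x y ns i := by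
  induction ns generalizing o with
  | nil => simp at ho; omega
  | cons n ns ih =>
    have hMn := hM n (by simp)
    rw [length_PI_cons] at ho
    by_cases h1 : bl U R n ≤ o
    · obtain ⟨i, h2, h3, h4⟩ := ih (fun m hm => hM m (by simp [hm])) (o - bl U R n) (by omega)
      refine ⟨i + bl U R n, by omega, by omega, ?_⟩
      unfold E at h4 ⊢
      rw [getElem?_PI_right _ _ _ _ _ _ _ (by omega), getElem?_PI_right _ _ _ _ _ _ _ (by omega),
        Nat.add_sub_cancel]
      exact h4
    · push Not at h1
      by_cases h2 : o ≤ U.length
      · exact ⟨U.length, h2, by unfold bl at *; omega, E_at _ _ _ _ hxy _ _⟩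
      · push Not at h2
        cases ns with
        | nil => simp at ho; omega
        | cons n' ns' =>
          refine ⟨bl U R n + U.length, by omega, by omega, ?_⟩
          unfold E
          rw [getElem?_PI_right U R x y n _ _ (by omega),
            getElem?_PI_right U R y x n _ _ (by omega), Nat.add_sub_cancel_left]
          exact E_at _ _ _ _ hxy _ _

end brk

end Pool.Agent.Q102.ClassP
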